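import Mathlib
import Pool.Agent.Q21.FPP.Main

set_option autoImplicit false

namespace Pool.Agent.Results.MP_80cb54_al.EveryValue

open Equiv Filter Topology

/-- Automorphisms of the `d`-regular rooted tree whose vertices are the words over `Fin d` (the
root is the empty word, and `v` lies above `w` exactly when `v` is an initial segment of `w`): the
permutations of the vertices that preserve this order in both directions. -/
def IsTreeAut {d : ℕ} (g : Perm (List (Fin d))) : Prop :=
  ∀ v w : List (Fin d), v <+: w ↔ g v <+: g w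

/-- `L_n`, the vertices of level `n`: the words of length `n`. -/
abbrev Lvl (d n : ℕ) : Type := {w : List (Fin d) // w.length = n}

/-- `G_n`, the image of `G` in the symmetric group of `L_n`. -/
def levelGroup {d : ℕ} (G : Subgroup (Perm (List (Fin d)))) (n : ℕ) : Set (Perm (Lvl d n)) :=
  {s | ∃ g ∈ G, ∀ v : Lvl d n, (s v).1 = g v.1}

/-- The proportion of the elements of `G_n` that fix a vertex of `L_n`. -/
noncomputable def fixProp {d : ℕ} (G : Subgroup (Perm (List (Fin d)))) (n : ℕ) : ℝ :=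
  (Set.ncard {s | s ∈ levelGroup G n ∧ ∃ v : Lvl d n, s v = v} : ℝ) /
    (Set.ncard (levelGroup G n) : ℝ)

/-- The fixed-point proportion of `G` is `α`. -/
def HasFPP {d : ℕ} (G : Subgroup (Perm (List (Fin d)))) (α : ℝ) : Prop :=
  Tendsto (fixProp G) atTop (𝓝 α)

open Q21.FPP Q21.Dens

/-- Rotation data for a product. -/
def mkRot {X Y : Type} [Nonempty Y] {p : ℕ} (hp : 0 < p) (e : X ≃ Y × Fin p) : Rot p X where
  res c := ((e c).2.val : ℤ)
  rotl c z := e.symm ((e c).1, ⟨((((e c).2.val : ℤ) + z) % p).toNat, by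
    have h1 := Int.emod_nonneg (((e c).2.val : ℤ) + z) (show (p : ℤ) ≠ 0 by omega)
    have h2 := Int.emod_lt_of_pos (((e c).2.val : ℤ) + z) (show (0 : ℤ) < p by omega)
    omega⟩)
  res_nonneg c := Int.natCast_nonneg _
  res_lt c := by exact_mod_cast (e c).2.isLt
  res_rotl c z := by
    have h1 := Int.emod_nonneg (((e c).2.val : ℤ) + z) (show (p : ℤ) ≠ 0 by omega)
    simp only [Equiv.apply_symm_apply]
    exact Int.toNat_of_nonneg h1
  rotl_rotl c z z' := by
    have h1 := Int.emod_nonneg (((e c).2.val : ℤ) + z) (show (p : ℤ) ≠ 0 by omega)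
    simp only [Equiv.apply_symm_apply]
    congr 3
    rw [Int.toNat_of_nonneg h1, Int.emod_add_emod, add_assoc]
  rotl_eq c z := by
    have h1 := Int.emod_nonneg (((e c).2.val : ℤ) + z) (show (p : ℤ) ≠ 0 by omega)
    have h2 := (e c).2.isLt
    rw [Equiv.symm_apply_eq]
    constructor
    · intro h
      have h3 := congrArg (fun t : Y × Fin p => (t.2.val : ℤ)) h
      simp only at h3
      rw [Int.toNat_of_nonneg h1] at h3
      have h4 : (((e c).2.val : ℤ) + z) % p = ((e c).2.val : ℤ) % p := by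
        rw [h3, Int.emod_eq_of_lt (Int.natCast_nonneg _) (by omega)]
      have h5 : (p : ℤ) ∣ ((e c).2.val : ℤ) - (((e c).2.val : ℤ) + z) := Int.ModEq.dvd h4
      have h6 : ((e c).2.val : ℤ) - (((e c).2.val : ℤ) + z) = -z := by ring
      rw [h6] at h5
      exact (dvd_neg).1 h5
    · rintro ⟨k, rfl⟩
      refine Prod.ext rfl (Fin.ext ?_)
      show ((((e c).2.val : ℤ) + p * k) % p).toNat = (e c).2.val
      rw [Int.add_mul_emod_self_left, Int.emod_eq_of_lt (Int.natCast_nonneg _) (by omega)]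
      simp
  surj i h0 hi := by
    obtain ⟨y⟩ : Nonempty Y := inferInstance
    refine ⟨e.symm (y, ⟨i.toNat, by omega⟩), ?_⟩
    simp only [Equiv.apply_symm_apply]
    exact Int.toNat_of_nonneg h0

/-- The action of `ℤ²` on level `n`. -/
noncomputable def ρ {d p : ℕ} (R : Rot p (Fin d)) (q : Q) (n : ℕ) : Z2 →* Perm (Lvl d n) where
  toFun g := (Θ R q g).subtypePerm (fun w => by rw [Θ_apply, act_length])
  map_one' := by
    ext1 w
    apply Subtype.ext
    show Θ R q 1 w.1 = w.1
    rw [map_one]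
    rfl
  map_mul' g h := by
    ext1 w
    apply Subtype.ext
    show Θ R q (g * h) w.1 = Θ R q g (Θ R q h w.1)
    rw [map_mul]
    rfl

theorem ρ_apply {d p : ℕ} (R : Rot p (Fin d)) (q : Q) (n : ℕ) (g : Z2) (v : Lvl d n) :
    (ρ R q n g v).1 = Θ R q g v.1 := rfl

/-- For every `d ≥ 2` and every `α` in `[0, 1]` there are two commuting automorphisms `a`, `b` of
the `d`-regular rooted tree such that the group generated by them has the fixed-point
proportion `α`. -/
theorem result (d : ℕ) (hd : 2 ≤ d) (α : ℝ) (h0 : 0 ≤ α) (h1 : α ≤ 1) :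
    ∃ a b : Perm (List (Fin d)), IsTreeAut a ∧ IsTreeAut b ∧ a * b = b * a ∧
      HasFPP (Subgroup.closure {a, b}) α := by
  obtain ⟨p, hp, k, rfl⟩ : ∃ p : ℕ, p.Prime ∧ ∃ k, d = k * p := by
    refine ⟨d.minFac, Nat.minFac_prime (by omega), ?_⟩
    obtain ⟨k, hk⟩ := Nat.minFac_dvd d
    exact ⟨k, by rw [mul_comm]; exact hk⟩
  have hpf : Fact p.Prime := ⟨hp⟩
  have hk : 0 < k := by
    rcases Nat.eq_zero_or_pos k with h | h
    · rw [h] at hd
      omega
    · exact h
  have : Nonempty (Fin k) := ⟨⟨0, hk⟩⟩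
  have : Nonempty (Fin (k * p)) := ⟨⟨0, by omega⟩⟩
  let R : Rot p (Fin (k * p)) := mkRot hp.pos finProdFinEquiv.symm
  let q : Q := .S α
  have haut : ∀ g : Z2, IsTreeAut (Θ R q g) := by
    intro g v w
    constructor
    · exact act_prefix R v w q _ _
    · intro h
      have h2 : Θ R q g⁻¹ (Θ R q g v) <+: Θ R q g⁻¹ (Θ R q g w) := act_prefix R _ _ q _ _ h
      rw [map_inv] at h2
      rwa [show (Θ R q g)⁻¹ (Θ R q g v) = v from (Θ R q g).symm_apply_apply v,
        show (Θ R q g)⁻¹ (Θ R q g w) = w from (Θ R q g).symm_apply_apply w] at h2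
  let g1 : Z2 := Multiplicative.ofAdd ((1 : ℤ), (0 : ℤ))
  let g2 : Z2 := Multiplicative.ofAdd ((0 : ℤ), (1 : ℤ))
  let a : Perm (List (Fin (k * p))) := Θ R q g1
  let b : Perm (List (Fin (k * p))) := Θ R q g2
  have hcl : Subgroup.closure {a, b} = (Θ R q).range := by
    apply le_antisymm
    · rw [Subgroup.closure_le]
      rintro _ (rfl | rfl)
      · exact ⟨_, rfl⟩
      · exact ⟨_, rfl⟩
    · rintro _ ⟨g, rfl⟩
      have hg : g = g1 ^ (g.toAdd.1) * g2 ^ (g.toAdd.2) := by
        apply Multiplicative.toAdd.injective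
        rw [toAdd_mul, toAdd_zpow, toAdd_zpow]
        refine Prod.ext ?_ ?_ <;> simp [g1, g2]
      rw [hg, map_mul, map_zpow, map_zpow]
      have hma : a ∈ Subgroup.closure {a, b} := Subgroup.subset_closure (Set.mem_insert _ _)
      have hmb : b ∈ Subgroup.closure {a, b} :=
        Subgroup.subset_closure (Set.mem_insert_of_mem _ rfl)
      exact Subgroup.mul_mem _ (Subgroup.zpow_mem _ hma _) (Subgroup.zpow_mem _ hmb _)
  refine ⟨a, b, haut _, haut _, ?_, ?_⟩
  · show Θ R q g1 * Θ R q g2 = Θ R q g2 * Θ R q g1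
    rw [← (Θ R q).map_mul, ← (Θ R q).map_mul, mul_comm g1 g2]
  · rw [hcl]
    have hlev : ∀ n, levelGroup (Θ R q).range n = {s | s ∈ (ρ R q n).range} := by
      intro n
      ext s
      constructor
      · rintro ⟨_, ⟨g, rfl⟩, hg⟩
        refine ⟨g, ?_⟩
        ext1 v
        apply Subtype.ext
        rw [hg, ρ_apply]
      · rintro ⟨g, rfl⟩
        exact ⟨_, ⟨g, rfl⟩, fun v => ρ_apply R q n g v⟩
    have hfin : ∀ n, Finite (Lvl (k * p) n) := fun n =>
      (List.finite_length_eq (Fin (k * p)) n).to_subtype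
    have hval : ∀ n (r : ℝ), HasDens (F R n q) r → fixProp (Θ R q).range n = r := by
      intro n r hr
      have hfin' := hfin n
      have h3 := HasDens.ratio (ρ R q n) (fun s => ∃ v, s v = v) (r := r) (by
        convert hr using 1
        ext g
        constructor
        · rintro ⟨v, hv⟩
          exact ⟨v.1, v.2, congrArg Subtype.val hv⟩
        · rintro ⟨w, hw, hg⟩
          exact ⟨⟨w, hw⟩, Subtype.ext hg⟩)
      rw [fixProp, hlev n]
      exact h3
    have hb1 : ∀ n, |fixProp (Θ R q).range (n + 1) - α| ≤ (1 / p : ℝ) ^ (n / 2) := by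
      intro n
      obtain ⟨r, hr, hr'⟩ := dens_S R n α h0 h1
      rwa [hval _ r hr]
    show Tendsto (fixProp (Θ R q).range) atTop (𝓝 α)
    rw [← tendsto_add_atTop_iff_nat 1, tendsto_iff_dist_tendsto_zero]
    have hp1 : (1 : ℝ) < p := by exact_mod_cast hp.one_lt
    have hlim : Tendsto (fun n : ℕ => (1 / p : ℝ) ^ (n / 2)) atTop (𝓝 0) := by
      have h4 : Tendsto (fun n : ℕ => (1 / p : ℝ) ^ n) atTop (𝓝 0) := by
        apply tendsto_pow_atTop_nhds_zero_of_lt_one (by positivity)
        rw [div_lt_one (by linarith)]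
        exact hp1
      exact h4.comp (Nat.tendsto_div_const_atTop (by norm_num))
    refine squeeze_zero (fun _ => dist_nonneg) (fun n => ?_) hlim
    rw [Real.dist_eq]
    exact hb1 n

end Pool.Agent.Results.MP_80cb54_al.EveryValue
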